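import Pool.Agent.K3h88.Loz.Stm

/-!
# Brick C5: the closed form of the sum over one line
-/

set_option autoImplicit false

namespace Pool.Agent.K3h8.Loz

open Finset
open Pool.Agent.K3h88.Loz

/-- one factor of the Vandermonde product -/
noncomputable def fac (a b : ℤ) : ℝ := if a < b then (b : ℝ) - a else 1

lemma vd_eq (X : Finset ℤ) : vd X = ∏ a ∈ X, ∏ b ∈ X, fac a b := by
  unfold vd
  rw [Finset.prod_filter, Finset.prod_product]
  rfl

lemma fac_self (a : ℤ) : fac a a = 1 := by simp [fac]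

lemma fac_mul {a b : ℤ} (h : a ≠ b) : fac a b * fac b a = |(b : ℝ) - a| := by
  rcases lt_or_gt_of_ne h with h | h
  · have h1 : ¬ b < a := not_lt.2 h.le
    have h2 : (a : ℝ) < b := by exact_mod_cast h
    simp only [fac, h, h1, if_true, if_false, mul_one]
    rw [abs_of_pos (by linarith)]
  · have h1 : ¬ a < b := not_lt.2 (le_of_lt h)
    have h2 : (b : ℝ) < a := by exact_mod_cast h
    have h3 : b < a := h
    simp only [fac, h3, h1, if_true, if_false, one_mul]
    rw [abs_of_neg (by linarith)]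
    ring

lemma vd_insert {a : ℤ} {X : Finset ℤ} (h : a ∉ X) :
    vd (insert a X) = vd X * ∏ x ∈ X, |(x : ℝ) - a| := by
  rw [vd_eq, vd_eq, Finset.prod_insert h]
  have h1 : ∀ x ∈ X, ∏ b ∈ insert a X, fac x b = fac x a * ∏ b ∈ X, fac x b := fun x _ =>
    Finset.prod_insert h
  rw [Finset.prod_congr rfl h1, Finset.prod_insert h, fac_self, one_mul, Finset.prod_mul_distrib]
  have h2 : ∏ x ∈ X, |(x : ℝ) - a| = (∏ x ∈ X, fac a x) * ∏ x ∈ X, fac x a := by
    rw [← Finset.prod_mul_distrib]
    refine Finset.prod_congr rfl fun x hx => ?_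
    rw [fac_mul]
    rintro rfl
    exact h hx
  rw [h2]
  ring

lemma vd_union (A : Finset ℤ) : ∀ {B : Finset ℤ}, Disjoint A B →
    vd (A ∪ B) = vd A * vd B * PP A B := by
  intro B
  induction B using Finset.induction_on with
  | empty =>
    intro _
    simp [PP, vd]
  | insert b B hb ih =>
    intro h
    have h1 : b ∉ A := Finset.disjoint_right.1 h (Finset.mem_insert_self b B)
    have h2 : Disjoint A B := Finset.disjoint_of_subset_right (Finset.subset_insert b B) h
    have h3 : b ∉ A ∪ B := by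
      simp [h1, hb]
    rw [Finset.union_insert, vd_insert h3, vd_insert hb, ih h2, Finset.prod_union h2]
    have h4 : PP A (insert b B) = PP A B * ∏ x ∈ A, |(x : ℝ) - b| := by
      unfold PP
      rw [← Finset.prod_mul_distrib]
      refine Finset.prod_congr rfl fun x _ => ?_
      rw [Finset.prod_insert hb, mul_comm]
    rw [h4]
    ring

lemma vd_translate (c : ℤ) (X : Finset ℤ) : vd (X.image (fun a => a + c)) = vd X := by
  rw [vd_eq, vd_eq]
  have hinj : Function.Injective (fun a : ℤ => a + c) := add_left_injective c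
  rw [Finset.prod_image (fun a _ b _ h => hinj h)]
  refine Finset.prod_congr rfl fun a _ => ?_
  rw [Finset.prod_image (fun a _ b _ h => hinj h)]
  refine Finset.prod_congr rfl fun b _ => ?_
  simp only [fac, add_lt_add_iff_right]
  split_ifs
  · push_cast
    ring
  · rfl

lemma tt_translate (c : ℤ) (X : Finset ℤ) : tt (X.image (fun a => a + c)) = tt X := by
  unfold tt
  rw [vd_translate, Finset.card_image_of_injective _ (add_left_injective c)]

lemma sf_pos (n : ℕ) : 0 < sf n := by
  unfold sf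
  exact Finset.prod_pos fun i _ => by exact_mod_cast i.factorial_pos

lemma sf_succ (n : ℕ) : sf (n + 1) = sf n * n.factorial := by
  unfold sf
  rw [Finset.prod_range_succ]

lemma vd_Ico (a : ℤ) (p : ℕ) : vd (Ico a (a + p)) = sf p := by
  induction p with
  | zero => simp [vd, sf]
  | succ p ih =>
    have h1 : Ico a (a + (p + 1 : ℕ)) = insert (a + p) (Ico a (a + p)) := by
      ext z
      simp only [Finset.mem_Ico, Finset.mem_insert]
      push_cast
      omega
    have h2 : a + (p : ℤ) ∉ Ico a (a + (p : ℤ)) := by simp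
    rw [h1, vd_insert h2, ih, sf_succ]
    congr 1
    have h3 : Ico a (a + (p : ℤ)) = (range p).image (fun i : ℕ => a + p - 1 - i) := by
      ext z
      simp only [Finset.mem_Ico, Finset.mem_image, Finset.mem_range]
      constructor
      · rintro ⟨h, h'⟩
        refine ⟨(a + p - 1 - z).toNat, ?_, ?_⟩ <;> omega
      · rintro ⟨i, hi, rfl⟩
        omega
    rw [h3, Finset.prod_image (fun i _ j _ h => by
      have : a + (p : ℤ) - 1 - i = a + p - 1 - j := h
      omega)]
    rw [← Finset.prod_range_add_one_eq_factorial]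
    push_cast
    refine Finset.prod_congr rfl fun i _ => ?_
    have h5 : ((a : ℝ) + p - 1 - i - (a + p)) = -((i : ℝ) + 1) := by ring
    rw [h5, abs_neg, abs_of_pos (by positivity)]

lemma PP_blocks (p q g : ℕ) :
    PP (Ico (-(p : ℤ)) 0) (Ico (g : ℤ) (g + q)) =
      sf (g + p + q) * sf g / (sf (g + p) * sf (g + q)) := by
  have key : ∀ i : ℕ, ∏ e ∈ Ico (g : ℤ) (g + q), |(((-(i : ℤ) - 1 : ℤ)) : ℝ) - (e : ℝ)| =
      ((g + i + q).factorial : ℝ) / ((g + i).factorial : ℝ) := by
    intro i
    have h3 : Ico (g : ℤ) (g + (q : ℤ)) = (range q).image (fun j : ℕ => (g : ℤ) + j) := by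
      ext z
      simp only [Finset.mem_Ico, Finset.mem_image, Finset.mem_range]
      constructor
      · rintro ⟨h, h'⟩
        refine ⟨(z - g).toNat, ?_, ?_⟩ <;> omega
      · rintro ⟨i, hi, rfl⟩
        omega
    rw [h3, Finset.prod_image (fun i _ j _ h => by
      have : (g : ℤ) + i = g + j := h
      omega)]
    clear h3
    induction q with
    | zero =>
      have : ((g + i).factorial : ℝ) ≠ 0 := by exact_mod_cast (g + i).factorial_ne_zero
      simp [this]
    | succ q ih =>
      rw [Finset.prod_range_succ, ih, show g + i + (q + 1) = (g + i + q) + 1 by ring,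
        Nat.factorial_succ]
      push_cast
      have h5 : (-(i : ℝ) - 1 - (g + q)) = -((g : ℝ) + i + q + 1) := by ring
      rw [h5, abs_neg, abs_of_pos (by positivity)]
      ring
  have h3 : Ico (-(p : ℤ)) 0 = (range p).image (fun j : ℕ => -(j : ℤ) - 1) := by
    ext z
    simp only [Finset.mem_Ico, Finset.mem_image, Finset.mem_range]
    constructor
    · rintro ⟨h, h'⟩
      refine ⟨(-z - 1).toNat, ?_, ?_⟩ <;> omega
    · rintro ⟨i, hi, rfl⟩
      omega
  unfold PP
  rw [h3, Finset.prod_image (fun i _ j _ h => by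
    have : -(i : ℤ) - 1 = -(j : ℤ) - 1 := h
    omega), Finset.prod_congr rfl (fun i _ => key i)]
  clear h3
  induction p with
  | zero =>
    have h1 := (sf_pos g).ne'
    have h2 := (sf_pos (g + q)).ne'
    simp
    field_simp
  | succ p ih =>
    rw [Finset.prod_range_succ, ih, show g + (p + 1) + q = (g + p + q) + 1 by ring,
      show g + (p + 1) = (g + p) + 1 by ring, sf_succ, sf_succ]
    have h1 := (sf_pos (g + p)).ne'
    have h2 := (sf_pos (g + q)).ne'
    have h4 : ((g + p).factorial : ℝ) ≠ 0 := by exact_mod_cast (g + p).factorial_ne_zero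
    field_simp

lemma side_two {N m n : ℕ} (hm : Even m) (hn : Even n) :
    2 * side N m n = 2 * N + (m + n) := by
  obtain ⟨a, rfl⟩ := hm
  obtain ⟨b, rfl⟩ := hn
  unfold side
  omega

lemma card_even (m : ℕ) : ((range m).filter (fun i => Even i)).card = (m + 1) / 2 := by
  induction m with
  | zero => simp
  | succ m ih =>
    rw [Finset.range_add_one, Finset.filter_insert]
    split_ifs with h
    · rw [Finset.card_insert_of_notMem (by simp), ih]
      obtain ⟨c, rfl⟩ := h
      omega
    · rw [ih]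
      rw [Nat.not_even_iff_odd] at h
      obtain ⟨c, rfl⟩ := h
      omega

lemma card_odd (m : ℕ) : ((range m).filter (fun i => Odd i)).card = m / 2 := by
  induction m with
  | zero => simp
  | succ m ih =>
    rw [Finset.range_add_one, Finset.filter_insert]
    split_ifs with h
    · rw [Finset.card_insert_of_notMem (by simp), ih]
      obtain ⟨c, rfl⟩ := h
      omega
    · rw [ih]
      rw [Nat.not_odd_iff_even] at h
      obtain ⟨c, rfl⟩ := h
      omega

/-- the union of the two blocks around the gap -/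
noncomputable def Bs (N m n x : ℕ) : Finset ℤ :=
  Ico (-(x : ℤ)) m ∪ Ico (2 * (side N m n : ℤ) - x - n) (2 * (side N m n : ℤ))

lemma mem_Us {N m n x : ℕ} {z : ℤ} : z ∈ Us N m n x ↔
    (0 ≤ z ∧ z < m ∧ Even z) ∨ (0 ≤ 2 * (side N m n : ℤ) - x - 1 - z ∧
      2 * (side N m n : ℤ) - x - 1 - z < n ∧ Even (2 * (side N m n : ℤ) - x - 1 - z)) := by
  unfold Us
  simp only [Finset.mem_union, Finset.mem_image, Finset.mem_filter, Finset.mem_range]
  constructor
  · rintro (⟨i, ⟨hi, he⟩, rfl⟩ | ⟨i, ⟨hi, he⟩, rfl⟩)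
    · left
      refine ⟨by omega, by omega, ?_⟩
      exact_mod_cast he
    · right
      refine ⟨by omega, by omega, ?_⟩
      have : (2 * (side N m n : ℤ) - x - 1 - (2 * (side N m n : ℤ) - x - 1 - i)) = i := by ring
      rw [this]
      exact_mod_cast he
  · rintro (⟨h0, h1, he⟩ | ⟨h0, h1, he⟩)
    · left
      refine ⟨z.toNat, ⟨by omega, ?_⟩, by omega⟩
      have : ((z.toNat : ℕ) : ℤ) = z := by omega
      rw [← this] at he
      exact_mod_cast he
    · right
      refine ⟨(2 * (side N m n : ℤ) - x - 1 - z).toNat, ⟨by omega, ?_⟩, by omega⟩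
      have : (((2 * (side N m n : ℤ) - x - 1 - z).toNat : ℕ) : ℤ) =
        2 * (side N m n : ℤ) - x - 1 - z := by omega
      rw [← this] at he
      exact_mod_cast he

lemma mem_Ds {N m n x : ℕ} {z : ℤ} : z ∈ Ds N m n x ↔
    (0 ≤ z ∧ z < m ∧ Odd z) ∨ (0 ≤ 2 * (side N m n : ℤ) - x - 1 - z ∧
      2 * (side N m n : ℤ) - x - 1 - z < n ∧ Odd (2 * (side N m n : ℤ) - x - 1 - z)) := by
  unfold Ds
  simp only [Finset.mem_union, Finset.mem_image, Finset.mem_filter, Finset.mem_range]
  constructor
  · rintro (⟨i, ⟨hi, he⟩, rfl⟩ | ⟨i, ⟨hi, he⟩, rfl⟩)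
    · left
      refine ⟨by omega, by omega, ?_⟩
      exact_mod_cast he
    · right
      refine ⟨by omega, by omega, ?_⟩
      have : (2 * (side N m n : ℤ) - x - 1 - (2 * (side N m n : ℤ) - x - 1 - i)) = i := by ring
      rw [this]
      exact_mod_cast he
  · rintro (⟨h0, h1, he⟩ | ⟨h0, h1, he⟩)
    · left
      refine ⟨z.toNat, ⟨by omega, ?_⟩, by omega⟩
      have : ((z.toNat : ℕ) : ℤ) = z := by omega
      rw [← this] at he
      exact_mod_cast he
    · right
      refine ⟨(2 * (side N m n : ℤ) - x - 1 - z).toNat, ⟨by omega, ?_⟩, by omega⟩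
      have : (((2 * (side N m n : ℤ) - x - 1 - z).toNat : ℕ) : ℤ) =
        2 * (side N m n : ℤ) - x - 1 - z := by omega
      rw [← this] at he
      exact_mod_cast he

lemma mem_Es {N m n x : ℕ} {z : ℤ} : z ∈ Es N m n x ↔
    (-(x : ℤ) ≤ z ∧ z < 0) ∨ z ∈ Ds N m n x ∨
      (2 * (side N m n : ℤ) - x ≤ z ∧ z < 2 * (side N m n : ℤ)) := by
  unfold Es
  simp only [Finset.mem_union, Finset.mem_Ico]
  tauto

lemma mem_Bs {N m n x : ℕ} {z : ℤ} : z ∈ Bs N m n x ↔
    (-(x : ℤ) ≤ z ∧ z < m) ∨
      (2 * (side N m n : ℤ) - x - n ≤ z ∧ z < 2 * (side N m n : ℤ)) := by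
  unfold Bs
  simp only [Finset.mem_union, Finset.mem_Ico]

lemma disj_UE {N m n x : ℕ} (hm : Even m) (hn : Even n) (hx : x ≤ N) :
    Disjoint (Us N m n x) (Es N m n x) := by
  have hs := side_two (N := N) hm hn
  rw [Finset.disjoint_left]
  intro z hz hz'
  rw [mem_Us] at hz
  rw [mem_Es, mem_Ds] at hz'
  rw [Int.even_iff, Int.even_iff] at hz
  rw [Int.odd_iff, Int.odd_iff] at hz'
  omega

lemma union_UE {N m n x : ℕ} (hm : Even m) (hn : Even n) (hx : x ≤ N) :
    Us N m n x ∪ Es N m n x = Bs N m n x := by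
  have hs := side_two (N := N) hm hn
  ext z
  rw [Finset.mem_union, mem_Us, mem_Es, mem_Ds, mem_Bs, Int.even_iff, Int.even_iff, Int.odd_iff,
    Int.odd_iff]
  omega

lemma card_Us {N m n x : ℕ} (hm : Even m) (hn : Even n) (hx : x ≤ N) :
    (Us N m n x).card = m / 2 + n / 2 := by
  have hs := side_two (N := N) hm hn
  unfold Us
  rw [Finset.card_union_of_disjoint, Finset.card_image_of_injective, card_even,
    Finset.card_image_of_injective, card_even]
  · obtain ⟨a, rfl⟩ := hm
    obtain ⟨b, rfl⟩ := hn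
    omega
  · intro i j h
    have : 2 * (side N m n : ℤ) - x - 1 - i = 2 * (side N m n : ℤ) - x - 1 - j := h
    omega
  · intro i j h
    have : (i : ℤ) = j := h
    omega
  · rw [Finset.disjoint_left]
    simp only [Finset.mem_image, Finset.mem_filter, Finset.mem_range]
    rintro z ⟨i, ⟨hi, -⟩, rfl⟩ ⟨j, ⟨hj, -⟩, h⟩
    omega

lemma card_Bs {N m n x : ℕ} (hm : Even m) (hn : Even n) (hx : x ≤ N) :
    (Bs N m n x).card = m + n + 2 * x := by
  have hs := side_two (N := N) hm hn
  unfold Bs
  rw [Finset.card_union_of_disjoint, Int.card_Ico, Int.card_Ico]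
  · omega
  · rw [Finset.disjoint_left]
    simp only [Finset.mem_Ico]
    intro z h h'
    omega

lemma card_Es {N m n x : ℕ} (hm : Even m) (hn : Even n) (hx : x ≤ N) :
    (Es N m n x).card = m / 2 + n / 2 + 2 * x := by
  have h1 := card_Bs (x := x) hm hn hx
  rw [← union_UE hm hn hx, Finset.card_union_of_disjoint (disj_UE hm hn hx),
    card_Us hm hn hx] at h1
  obtain ⟨a, rfl⟩ := hm
  obtain ⟨b, rfl⟩ := hn
  omega

lemma PP_pos {U E : Finset ℤ} (h : Disjoint U E) : 0 < PP U E := by
  unfold PP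
  refine Finset.prod_pos fun u hu => Finset.prod_pos fun e he => ?_
  rw [abs_pos, sub_ne_zero]
  intro h'
  have : u = e := by exact_mod_cast h'
  exact Finset.disjoint_left.1 h hu (this ▸ he)

lemma PP_union_left {A B : Finset ℤ} (S : Finset ℤ) (h : Disjoint A B) :
    PP (A ∪ B) S = PP A S * PP B S := by
  unfold PP
  rw [Finset.prod_union h]

lemma term {N m n x : ℕ} (hm : Even m) (hn : Even n) (hx : x ≤ N) {S : Finset ℤ}
    (hS : S ⊆ Ico (m : ℤ) (2 * (side N m n : ℤ) - x - n)) (hc : S.card = N - x) :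
    tt (Us N m n x ∪ S) * tt (Es N m n x ∪ S) =
      tt S * tt (Bs N m n x ∪ S) * (sf (N - x) * sf (N + (m + n) + x) /
        (sf (side N m n - x) * sf (side N m n + x) * PP (Us N m n x) (Es N m n x))) := by
  have hs := side_two (N := N) hm hn
  have hBS : Disjoint (Bs N m n x) S := by
    rw [Finset.disjoint_left]
    intro z hz hz'
    have := hS hz'
    rw [mem_Bs] at hz
    rw [Finset.mem_Ico] at this
    omega
  have hUB : Us N m n x ⊆ Bs N m n x := by
    rw [← union_UE hm hn hx]
    exact Finset.subset_union_left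
  have hEB : Es N m n x ⊆ Bs N m n x := by
    rw [← union_UE hm hn hx]
    exact Finset.subset_union_right
  have hUS : Disjoint (Us N m n x) S := Finset.disjoint_of_subset_left hUB hBS
  have hES : Disjoint (Es N m n x) S := Finset.disjoint_of_subset_left hEB hBS
  have hUE := disj_UE (x := x) hm hn hx
  have c1 : (Us N m n x ∪ S).card = side N m n - x := by
    rw [Finset.card_union_of_disjoint hUS, card_Us hm hn hx, hc]
    obtain ⟨a, rfl⟩ := hm
    obtain ⟨b, rfl⟩ := hn
    omega
  have c2 : (Es N m n x ∪ S).card = side N m n + x := by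
    rw [Finset.card_union_of_disjoint hES, card_Es hm hn hx, hc]
    obtain ⟨a, rfl⟩ := hm
    obtain ⟨b, rfl⟩ := hn
    omega
  have c3 : (Bs N m n x ∪ S).card = N + (m + n) + x := by
    rw [Finset.card_union_of_disjoint hBS, card_Bs hm hn hx, hc]
    omega
  have hB : Bs N m n x = Us N m n x ∪ Es N m n x := (union_UE hm hn hx).symm
  unfold tt
  rw [c1, c2, c3, hc, vd_union _ hUS, vd_union _ hES, vd_union _ hBS, hB, vd_union _ hUE,
    PP_union_left S hUE]
  have e1 := (sf_pos (side N m n - x)).ne'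
  have e2 := (sf_pos (side N m n + x)).ne'
  have e3 := (sf_pos (N - x)).ne'
  have e4 := (sf_pos (N + (m + n) + x)).ne'
  have e5 := (PP_pos hUE).ne'
  field_simp

lemma Bs_translate {N m n x : ℕ} (hm : Even m) (hn : Even n) (hx : x ≤ N) (S : Finset ℤ) :
    Bs N m n x ∪ S.image (fun a => a + (m : ℤ)) =
      (Ico (-((m + x : ℕ) : ℤ)) 0 ∪ S ∪ Ico ((N : ℤ) + ((N - x : ℕ) : ℤ))
        ((N : ℤ) + ((N - x : ℕ) : ℤ) + ((n + x : ℕ) : ℤ))).image (fun a => a + (m : ℤ)) := by
  have hs := side_two (N := N) hm hn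
  have hN : ((N - x : ℕ) : ℤ) = N - x := by omega
  rw [Finset.image_union, Finset.image_union]
  ext z
  simp only [Finset.mem_union, mem_Bs, Finset.mem_image, Finset.mem_Ico]
  constructor
  · rintro ((h | h) | h)
    · exact Or.inl (Or.inl ⟨z - m, by omega, by omega⟩)
    · exact Or.inr ⟨z - m, by omega, by omega⟩
    · exact Or.inl (Or.inr h)
  · rintro ((⟨a, h, rfl⟩ | h) | ⟨a, h, rfl⟩)
    · exact Or.inl (Or.inl (by omega))
    · exact Or.inr h
    · exact Or.inl (Or.inr (by omega))

/-- **Brick C5.** -/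
theorem c5 (h3 : StmC3) : StmC5 := by
  intro N m n x hm hn hx
  have hs := side_two (N := N) hm hn
  have hN : ((N - x : ℕ) : ℤ) = N - x := by omega
  have step1 : ∑ S ∈ (Ico (m : ℤ) (2 * (side N m n : ℤ) - x - n)).powersetCard (N - x),
      tt (Us N m n x ∪ S) * tt (Es N m n x ∪ S) =
      (∑ S ∈ (Ico (m : ℤ) (2 * (side N m n : ℤ) - x - n)).powersetCard (N - x),
        tt S * tt (Bs N m n x ∪ S)) * (sf (N - x) * sf (N + (m + n) + x) /
        (sf (side N m n - x) * sf (side N m n + x) * PP (Us N m n x) (Es N m n x))) := by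
    rw [Finset.sum_mul]
    refine Finset.sum_congr rfl fun S hS => ?_
    rw [Finset.mem_powersetCard] at hS
    exact term hm hn hx hS.1 hS.2
  have step2 : ∑ S ∈ (Ico (m : ℤ) (2 * (side N m n : ℤ) - x - n)).powersetCard (N - x),
        tt S * tt (Bs N m n x ∪ S) =
      ∑ S ∈ (Ico (0 : ℤ) (N + (N - x : ℕ))).powersetCard (N - x),
        tt S * tt (Ico (-((m + x : ℕ) : ℤ)) 0 ∪ S ∪ Ico ((N : ℤ) + ((N - x : ℕ) : ℤ))
        ((N : ℤ) + ((N - x : ℕ) : ℤ) + ((n + x : ℕ) : ℤ))) := by
    symm
    refine Finset.sum_bij (fun S _ => S.image (fun a => a + (m : ℤ))) ?_ ?_ ?_ ?_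
    · intro S hS
      rw [Finset.mem_powersetCard] at hS ⊢
      refine ⟨?_, ?_⟩
      · intro z hz
        rw [Finset.mem_image] at hz
        obtain ⟨a, ha, rfl⟩ := hz
        have := hS.1 ha
        rw [Finset.mem_Ico] at this ⊢
        omega
      · rw [Finset.card_image_of_injective _ (add_left_injective (m : ℤ))]
        exact hS.2
    · intro S _ T _ h
      exact Finset.image_injective (add_left_injective (m : ℤ)) h
    · intro S hS
      rw [Finset.mem_powersetCard] at hS
      refine ⟨S.image (fun a => a - (m : ℤ)), ?_, ?_⟩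
      · rw [Finset.mem_powersetCard]
        refine ⟨?_, ?_⟩
        · intro z hz
          rw [Finset.mem_image] at hz
          obtain ⟨a, ha, rfl⟩ := hz
          have := hS.1 ha
          rw [Finset.mem_Ico] at this ⊢
          omega
        · rw [Finset.card_image_of_injective _ (fun a b h => by
            have : a - (m : ℤ) = b - m := h
            omega)]
          exact hS.2
      · rw [Finset.image_image]
        convert Finset.image_id using 1
        congr 1
        funext a
        simp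
    · intro S _
      rw [tt_translate, Bs_translate hm hn hx, tt_translate]
  have step3 := h3 (N - x) N (m + x) (n + x)
  have step4 : Ico (-(((m + x : ℕ) : ℤ) + ((N - x : ℕ) : ℤ))) 0 ∪
      Ico (N : ℤ) ((N : ℤ) + ((N - x : ℕ) : ℤ) + ((n + x : ℕ) : ℤ)) =
      Ico (-((m + N : ℕ) : ℤ)) 0 ∪ Ico (N : ℤ) ((N : ℤ) + ((N + n : ℕ) : ℤ)) := by
    ext z
    simp only [Finset.mem_union, Finset.mem_Ico]
    omega
  have step5 : tt (Ico (-((m + N : ℕ) : ℤ)) 0 ∪ Ico (N : ℤ) ((N : ℤ) + ((N + n : ℕ) : ℤ))) =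
      sf (m + N) * sf (N + n) * (sf (N + (m + N) + (N + n)) * sf N /
        (sf (N + (m + N)) * sf (N + (N + n)))) / sf (2 * side N m n) := by
    have hd : Disjoint (Ico (-((m + N : ℕ) : ℤ)) 0) (Ico (N : ℤ) ((N : ℤ) + ((N + n : ℕ) : ℤ))) := by
      rw [Finset.disjoint_left]
      intro z h h'
      rw [Finset.mem_Ico] at h h'
      omega
    unfold tt
    rw [Finset.card_union_of_disjoint hd, vd_union _ hd, PP_blocks, vd_Ico]
    have h6 : Ico (-((m + N : ℕ) : ℤ)) 0 =
        Ico (-((m + N : ℕ) : ℤ)) (-((m + N : ℕ) : ℤ) + ((m + N : ℕ) : ℤ)) := by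
      rw [neg_add_cancel]
    rw [h6, vd_Ico, Int.card_Ico, Int.card_Ico]
    congr 2
    omega
  rw [step1, step2, step3, step4, step5]
  have a1 : N + (m + N) + (N + n) = 3 * N + (m + n) := by ring
  have a2 : N + (m + N) = 2 * N + m := by ring
  have a3 : N + (N + n) = 2 * N + n := by ring
  have a4 : N + n = n + N := by ring
  rw [a1, a2, a3, a4]
  have e1 := (sf_pos (side N m n - x)).ne'
  have e2 := (sf_pos (side N m n + x)).ne'
  have e3 := (sf_pos (2 * side N m n)).ne'
  have e4 := (sf_pos (2 * N + m)).ne'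
  have e5 := (PP_pos (disj_UE (x := x) hm hn hx)).ne'
  have e6 := (sf_pos (2 * N + n)).ne'
  field_simp

end Pool.Agent.K3h8.Loz
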